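import Mathlib

set_option autoImplicit false

open Finset

namespace Pool.Agent.Results.MP_1bf996_co.OddMembers

/-- `H` is an affine hyperplane of `ℝⁿ`. -/
def IsHyperplane {n : ℕ} (H : Set (Fin n → ℝ)) : Prop :=
  ∃ (b : Fin n → ℝ) (c : ℝ), b ≠ 0 ∧ H = {x | ∑ i, b i * x i = c}

/-- `v` is a vertex of the cube `{0,1}ⁿ`. -/
def IsCubePoint {n : ℕ} (v : Fin n → ℝ) : Prop := ∀ i, v i = 0 ∨ v i = 1

/-- The family `H 0, …, H (N-1)` (repetitions allowed) is an almost `k`-cover of `{0,1}ⁿ` of
size `N`. -/
structure IsAlmostCover (n k N : ℕ) (H : Fin N → Set (Fin n → ℝ)) : Prop where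
  hyperplane : ∀ j, IsHyperplane (H j)
  avoids_zero : ∀ j, (0 : Fin n → ℝ) ∉ H j
  covers : ∀ v, IsCubePoint v → v ≠ 0 → k ≤ Nat.card {j // v ∈ H j}

/-- `H` is odd: there is a set `T` of coordinates such that every vertex of the cube in `H` has
an odd number of ones in `T`. -/
def IsOdd {n : ℕ} (H : Set (Fin n → ℝ)) : Prop :=
  ∃ T : Finset (Fin n), ∀ v, IsCubePoint v → v ∈ H → Odd (Nat.card {i // i ∈ T ∧ v i = 1})

/-- the number of members of the family which are not odd -/
noncomputable def numNotOdd {n N : ℕ} (H : Fin N → Set (Fin n → ℝ)) : ℕ :=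
  Nat.card {j // ¬ IsOdd (H j)}

/-- the vertex of the cube given by a vector over the field with two elements -/
noncomputable def vert {n : ℕ} (x : Fin n → ZMod 2) : Fin n → ℝ :=
  fun i => if x i = 0 then 0 else 1

/-- the number of members of the family which are not odd and contain the vertex `vert x` -/
noncomputable def notOddAt {n N : ℕ} (H : Fin N → Set (Fin n → ℝ)) (x : Fin n → ZMod 2) : ℕ :=
  Nat.card {j // ¬ IsOdd (H j) ∧ vert x ∈ H j}

section aux

variable {n N : ℕ}

theorem vert_cube (x : Fin n → ZMod 2) : IsCubePoint (vert x) := by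
  intro i
  unfold vert
  split_ifs
  · exact Or.inl rfl
  · exact Or.inr rfl

theorem vert_ne {x : Fin n → ZMod 2} (hx : x ≠ 0) : vert x ≠ 0 := by
  intro h
  apply hx
  funext i
  have := congrFun h i
  unfold vert at this
  by_contra h0
  simp only [Pi.zero_apply] at h0 this
  rw [if_neg h0] at this
  exact one_ne_zero this

theorem zmod2_cases (a : ZMod 2) : a = 0 ∨ a = 1 := by
  revert a; decide

theorem sum_vert (x : Fin n → ZMod 2) (T : Finset (Fin n)) :
    (Nat.card {i // i ∈ T ∧ vert x i = 1} : ZMod 2) = ∑ i ∈ T, x i := by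
  classical
  have h1 : Nat.card {i // i ∈ T ∧ vert x i = 1} = (T.filter fun i => x i = 1).card := by
    rw [Nat.card_eq_fintype_card, Fintype.card_subtype]
    congr 1
    ext i
    simp only [Finset.mem_filter, Finset.mem_univ, true_and]
    unfold vert
    rcases zmod2_cases (x i) with h | h <;> simp [h]
  rw [h1, Finset.card_filter]
  push_cast
  refine Finset.sum_congr rfl fun i _ => ?_
  rcases zmod2_cases (x i) with h | h <;> simp [h]

/-- the sphere packing bound for the odd members -/
theorem packing (k : ℕ) (H : Fin N → Set (Fin n → ℝ)) (hH : IsAlmostCover n k N H)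
    (L : AddSubgroup (Fin n → ZMod 2)) (e : ℕ)
    (he : ∀ x ∈ L, x ≠ 0 → 2 * e + 1 + notOddAt H x ≤ k) :
    Nat.card L * ∑ i ∈ Finset.range (e + 1), (N - numNotOdd H).choose i
      ≤ 2 ^ (N - numNotOdd H) := by
  classical
  -- the odd members
  let I := {j // IsOdd (H j)}
  have hcardI : Fintype.card I = N - numNotOdd H := by
    have h1 : Fintype.card I + numNotOdd H = N := by
      unfold numNotOdd
      rw [Nat.card_eq_fintype_card]
      have := Fintype.card_subtype_compl (fun j => IsOdd (H j))
      have h2 := Fintype.card_subtype_le (fun j => IsOdd (H j))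
      rw [Fintype.card_fin] at this h2
      have h3 : Fintype.card {j // ¬ IsOdd (H j)} = N - Fintype.card I := by
        rw [← this]
      rw [h3]
      have h4 : Fintype.card I ≤ N := h2
      omega
    omega
  choose T hT using fun j : I => j.2
  let c : (Fin n → ZMod 2) → (I → ZMod 2) := fun x j => ∑ i ∈ T j, x i
  have hadd : ∀ x y, c (x + y) = c x + c y := by
    intro x y
    funext j
    simp only [c, Pi.add_apply, Finset.sum_add_distrib]
  -- the weight of the code words
  have hwt : ∀ x ∈ L, x ≠ 0 →
      2 * e + 1 ≤ (Finset.univ.filter fun j : I => c x j ≠ 0).card := by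
    intro x hxL hx
    have h0 := he x hxL hx
    have h1 := hH.covers (vert x) (vert_cube x) (vert_ne hx)
    have h2 : Nat.card {j // vert x ∈ H j} ≤
        (Finset.univ.filter fun j : I => c x j ≠ 0).card + notOddAt H x := by
      have h3 : Nat.card {j // vert x ∈ H j} =
          (Finset.univ.filter fun j : Fin N => vert x ∈ H j).card := by
        rw [Nat.card_eq_fintype_card, Fintype.card_subtype]
      have h4 : notOddAt H x =
          (Finset.univ.filter fun j : Fin N => ¬ IsOdd (H j) ∧ vert x ∈ H j).card := by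
        unfold notOddAt
        rw [Nat.card_eq_fintype_card, Fintype.card_subtype]
      have h5 : (Finset.univ.filter fun j : I => c x j ≠ 0).card =
          ((Finset.univ.filter fun j : I => c x j ≠ 0).image (fun j : I => (j : Fin N))).card :=
        (Finset.card_image_of_injective _ Subtype.val_injective).symm
      rw [h3, h4, h5]
      refine le_trans (Finset.card_le_card ?_) (Finset.card_union_le _ _)
      intro j hj
      rw [Finset.mem_filter] at hj
      rw [Finset.mem_union]
      by_cases hodd : IsOdd (H j)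
      · left
        rw [Finset.mem_image]
        refine ⟨⟨j, hodd⟩, ?_, rfl⟩
        rw [Finset.mem_filter]
        refine ⟨Finset.mem_univ _, ?_⟩
        have h6 := hT ⟨j, hodd⟩ (vert x) (vert_cube x) hj.2
        have h7 : c x ⟨j, hodd⟩ = 1 := by
          simp only [c]
          rw [← sum_vert]
          obtain ⟨r, hr⟩ := h6
          rw [hr]
          push_cast
          have : (2 : ZMod 2) = 0 := by decide
          rw [this]
          ring
        rw [h7]
        exact one_ne_zero
      · right
        rw [Finset.mem_filter]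
        exact ⟨Finset.mem_univ _, hodd, hj.2⟩
    omega
  -- indicator vectors
  let ind : Finset I → (I → ZMod 2) := fun E j => if j ∈ E then 1 else 0
  let S : Finset (Finset I) := (Finset.range (e + 1)).biUnion
    fun i => (Finset.univ : Finset I).powersetCard i
  have hS : ∀ E, E ∈ S → E.card ≤ e := by
    intro E hE
    rw [Finset.mem_biUnion] at hE
    obtain ⟨i, hi, hE⟩ := hE
    rw [Finset.mem_range] at hi
    rw [Finset.mem_powersetCard] at hE
    omega
  have hScard : S.card = ∑ i ∈ Finset.range (e + 1), (N - numNotOdd H).choose i := by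
    rw [Finset.card_biUnion]
    · refine Finset.sum_congr rfl fun i _ => ?_
      rw [Finset.card_powersetCard, Finset.card_univ, hcardI]
    · intro i _ j _ hij
      exact Finset.pairwise_disjoint_powersetCard _ hij
  let F : L × S → (I → ZMod 2) := fun p => c p.1 + ind p.2
  have hself : ∀ v : I → ZMod 2, v + v = 0 := by
    intro v
    funext j
    rcases zmod2_cases (v j) with h | h
    · simp [h]
    · simp only [Pi.add_apply, h, Pi.zero_apply]
      decide
  have hself' : ∀ v : Fin n → ZMod 2, v + v = 0 := by
    intro v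
    funext j
    rcases zmod2_cases (v j) with h | h
    · simp [h]
    · simp only [Pi.add_apply, h, Pi.zero_apply]
      decide
  have hF : Function.Injective F := by
    rintro ⟨⟨x, hxL⟩, E, hE⟩ ⟨⟨y, hyL⟩, E', hE'⟩ h
    have h1 : c x + ind E = c y + ind E' := h
    have h2 : c (x + y) = ind E + ind E' := by
      rw [hadd]
      calc c x + c y = (c x + ind E) + (ind E + c y) := by
            rw [← add_assoc, add_assoc (c x), hself, add_zero]
        _ = (c y + ind E') + (ind E + c y) := by rw [h1]
        _ = (c y + c y) + (ind E + ind E') := by abel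
        _ = _ := by rw [hself, zero_add]
    have hxy : x = y := by
      by_contra hne
      have h3 : x + y ≠ 0 := by
        intro h0
        apply hne
        calc x = x + (y + y) := by rw [hself', add_zero]
          _ = (x + y) + y := by rw [add_assoc]
          _ = y := by rw [h0, zero_add]
      have h4 := hwt _ (L.add_mem hxL hyL) h3
      have h5 : (Finset.univ.filter fun j : I => c (x + y) j ≠ 0).card ≤ E.card + E'.card := by
        refine le_trans (Finset.card_le_card ?_) (Finset.card_union_le E E')
        intro j hj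
        rw [Finset.mem_filter] at hj
        rw [Finset.mem_union]
        by_contra hcon
        push Not at hcon
        apply hj.2
        rw [h2]
        simp [ind, hcon.1, hcon.2]
      have h6 := hS E hE
      have h7 := hS E' hE'
      omega
    subst hxy
    have h8 : ind E = ind E' := add_left_cancel h1
    have h9 : E = E' := by
      ext j
      have := congrFun h8 j
      simp only [ind] at this
      by_cases h : j ∈ E <;> by_cases h' : j ∈ E' <;> simp_all
    subst h9
    rfl
  have hcard := Nat.card_le_card_of_injective F hF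
  rw [Nat.card_prod, Nat.card_eq_fintype_card (α := S), Fintype.card_coe, hScard,
    Nat.card_eq_fintype_card (α := I → ZMod 2), Fintype.card_fun, ZMod.card, hcardI] at hcard
  exact hcard

theorem isOdd_of_eq (b : Fin n → ℤ) (c : ℤ) (hc : Odd c) :
    IsOdd {x : Fin n → ℝ | ∑ i, (b i : ℝ) * x i = (c : ℝ)} := by
  classical
  refine ⟨Finset.univ.filter fun i => Odd (b i), ?_⟩
  intro v hv hvH
  have h1 : ∑ i, b i * (if v i = 1 then 1 else 0) = c := by
    have h2 : ((∑ i, b i * (if v i = 1 then 1 else 0) : ℤ) : ℝ) = (c : ℝ) := by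
      rw [← hvH]
      push_cast
      refine Finset.sum_congr rfl fun i _ => ?_
      rcases hv i with h | h <;> simp [h]
    exact_mod_cast h2
  have h3 : ((Nat.card {i // i ∈ (Finset.univ.filter fun i => Odd (b i)) ∧ v i = 1} : ℕ) : ZMod 2)
      = ((c : ℤ) : ZMod 2) := by
    rw [← h1, Nat.card_eq_fintype_card, Fintype.card_subtype, Finset.card_filter]
    push_cast
    refine Finset.sum_congr rfl fun i _ => ?_
    by_cases hb : Odd (b i)
    · have hb1 : ((b i : ℤ) : ZMod 2) = 1 := by
        obtain ⟨r, hr⟩ := hb
        rw [hr]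
        push_cast
        have : (2 : ZMod 2) = 0 := by decide
        rw [this]
        ring
      by_cases hv1 : v i = 1 <;> simp [hb, hb1, hv1]
    · have hb0 : ((b i : ℤ) : ZMod 2) = 0 := by
        rw [Int.not_odd_iff_even] at hb
        obtain ⟨r, hr⟩ := hb
        rw [hr]
        push_cast
        rw [← two_mul]
        have : (2 : ZMod 2) = 0 := by decide
        rw [this]
        ring
      simp [hb, hb0]
  have h4 : ((c : ℤ) : ZMod 2) = 1 := by
    obtain ⟨r, hr⟩ := hc
    rw [hr]
    push_cast
    have : (2 : ZMod 2) = 0 := by decide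
    rw [this]
    ring
  rw [h4] at h3
  rw [← ZMod.natCast_eq_one_iff_odd]
  exact h3

end aux

theorem result :
    -- (1) the sphere packing bound on a subgroup `L` of the cube `(ℤ/2)ⁿ`
    (∀ (n k N : ℕ) (H : Fin N → Set (Fin n → ℝ)), IsAlmostCover n k N H →
      ∀ (L : AddSubgroup (Fin n → ZMod 2)) (e : ℕ),
      (∀ x ∈ L, x ≠ 0 → 2 * e + 1 + notOddAt H x ≤ k) →
      Nat.card L * ∑ i ∈ Finset.range (e + 1), (N - numNotOdd H).choose i
        ≤ 2 ^ (N - numNotOdd H)) ∧
    -- (2) the conjecture, if the vertices of a subgroup of index at most `2 ^ r` lie on at most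
    -- `k - 3` members which are not odd
    (∀ (n k N r : ℕ) (H : Fin N → Set (Fin n → ℝ)), IsAlmostCover n k N H →
      ∀ L : AddSubgroup (Fin n → ZMod 2), 2 ^ n ≤ 2 ^ r * Nat.card L →
      (∀ x ∈ L, x ≠ 0 → notOddAt H x + 3 ≤ k) →
      2 ^ (k.choose 2 + r) + r ≤ n → n + k.choose 2 < N) ∧
    -- (3) integral equations with an odd constant term define odd hyperplanes
    (∀ (n : ℕ) (b : Fin n → ℤ) (c : ℤ), Odd c →
      IsOdd {x : Fin n → ℝ | ∑ i, (b i : ℝ) * x i = (c : ℝ)}) := by
  refine ⟨fun n k N H hH L e he => packing k H hH L e he, ?_, fun n b c hc => isOdd_of_eq b c hc⟩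
  intro n k N r H hH L hL hd hn
  have h1 := packing k H hH L 1 (fun x hx hx0 => by have := hd x hx hx0; omega)
  set M := N - numNotOdd H with hM
  have h2 : ∑ i ∈ Finset.range (1 + 1), M.choose i = 1 + M := by
    simp [Finset.sum_range_succ]
  rw [h2] at h1
  have h3 : 2 ^ n * (1 + M) ≤ 2 ^ (r + M) := by
    calc 2 ^ n * (1 + M) ≤ 2 ^ r * Nat.card L * (1 + M) := Nat.mul_le_mul_right _ hL
      _ = 2 ^ r * (Nat.card L * (1 + M)) := by ring
      _ ≤ 2 ^ r * 2 ^ M := Nat.mul_le_mul_left _ h1
      _ = _ := by rw [pow_add]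
  have h4 : n ≤ r + M := by
    have : 2 ^ n ≤ 2 ^ (r + M) := le_trans (Nat.le_mul_of_pos_right _ (by omega)) h3
    exact (Nat.pow_le_pow_iff_right (by norm_num : 1 < 2)).mp this
  obtain ⟨q, hq⟩ := Nat.exists_eq_add_of_le h4
  rw [hq, pow_add] at h3
  have h5 : 1 + M ≤ 2 ^ q := Nat.le_of_mul_le_mul_left h3 (by positivity)
  have h6 : 2 ^ (k.choose 2 + r) < 2 ^ q := by omega
  have h7 : k.choose 2 + r < q := (Nat.pow_lt_pow_iff_right (by norm_num : 1 < 2)).mp h6
  omega

end Pool.Agent.Results.MP_1bf996_co.OddMembers
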