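import Pool.Agent.Results.MP_4671c3_co.LogRank

set_option autoImplicit false

namespace Pool.Agent.Helper81.SanityLogRank

open Pool.Agent.Results.MP_4671c3_co.LogRank

/-- The intercalate. -/
def W : Finset (Fin 2 × Fin 2 × Fin 2) := {(0, 0, 0), (0, 1, 1), (1, 0, 1), (1, 1, 0)}
/-- Its mate. -/
def B : Finset (Fin 2 × Fin 2 × Fin 2) := {(0, 0, 1), (0, 1, 0), (1, 0, 0), (1, 1, 1)}

/-- The definition of a bitrade is satisfied by the intercalate. -/
lemma isLatinBitrade : IsLatinBitrade W B where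
  nonempty_left := by decide
  nonempty_right := by decide
  pls_left := by refine ⟨?_, ?_, ?_⟩ <;> decide
  pls_right := by refine ⟨?_, ?_, ?_⟩ <;> decide
  cells := by decide
  rows := by decide
  cols := by decide
  disjoint := by decide

/-- Both mates embed in `ZMod 2`. -/
lemma embeds : Embeds W (ZMod 2) ∧ Embeds B (ZMod 2) := by
  refine ⟨⟨fun r => (r.val : ZMod 2), fun c => (c.val : ZMod 2), fun s => (s.val : ZMod 2),
    ?_, ?_, ?_, ?_⟩, ⟨fun r => (r.val : ZMod 2), fun c => (c.val : ZMod 2),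
    fun s => ((s.val + 1 : ℕ) : ZMod 2), ?_, ?_, ?_, ?_⟩⟩
  all_goals first
    | (apply Function.Injective.injOn; decide)
    | decide

/-- Its rank is one: `rho` is not identically zero. -/
lemma rho_pos : 0 < rho W B := by
  have h := (rho_bound isLatinBitrade ⟨ZMod 2, inferInstance, embeds⟩).1
  obtain ⟨G, _, _, hG, hW, _⟩ := h
  rw [← hG]
  obtain ⟨α, β, γ, hα, _⟩ := hW
  have : Nontrivial G := by
    refine ⟨α 0, α 1, fun h => ?_⟩
    have := hα (show (0 : Fin 2) ∈ {r | ∃ c s, (r, c, s) ∈ W} from ⟨0, 0, by decide⟩)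
      (show (1 : Fin 2) ∈ {r | ∃ c s, (r, c, s) ∈ W} from ⟨0, 1, by decide⟩) h
    exact absurd this (by decide)
  exact AddGroup.rank_pos G

end Pool.Agent.Helper81.SanityLogRank
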